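import Pool.Agent.MP_5f72fe_nt.H25.SpecD
import Pool.Agent.MP_5f72fe_nt.H26.EI2

/-! The commutation relation at the prime `2` for full theta series with integral values. -/

namespace Pool.Agent.MP_5f72fe_nt.H16

open Pool.Agent.MP_5f72fe_nt.H3 Pool.Agent.MP_5f72fe_nt.H25 Pool.Agent.MP_5f72fe_nt.H26

theorem z_mem1 (n : ℕ) (v : V) (h : v ∈ Rp n) : s1 v ∈ Rp n ∧ s2 (s1 v) = v := by
  obtain ⟨a, y, b⟩ := v
  rw [mem_Rp] at h
  obtain ⟨k, rfl⟩ := exk h.2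
  rw [s1_eq, mem_Rp, s21]
  refine ⟨⟨?_, by omega⟩, rfl⟩
  rw [← h.1]; ring

theorem z_mem2 (n : ℕ) (v : V) (h : v ∈ Rp n) : s2 v ∈ Rp n ∧ s1 (s2 v) = v := by
  obtain ⟨a, y, b⟩ := v
  rw [mem_Rp] at h
  obtain ⟨k, rfl⟩ := exk h.2
  rw [s2_eq, mem_Rp, s12]
  refine ⟨⟨?_, by omega⟩, rfl⟩
  rw [← h.1]; ring

theorem z_three (n : ℕ) (g : V → ℤ) :
    ∑ v ∈ Rp n, (g v + g (s1 v) + g (s2 v)) = 3 * ∑ v ∈ Rp n, g v := by
  have h1 : ∑ v ∈ Rp n, g (s1 v) = ∑ v ∈ Rp n, g v :=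
    Finset.sum_nbij' s1 s2 (fun v h => (z_mem1 n v h).1) (fun v h => (z_mem2 n v h).1)
      (fun v h => (z_mem1 n v h).2) (fun v h => (z_mem2 n v h).2) (fun _ _ => rfl)
  have h2 : ∑ v ∈ Rp n, g (s2 v) = ∑ v ∈ Rp n, g v :=
    Finset.sum_nbij' s2 s1 (fun v h => (z_mem2 n v h).1) (fun v h => (z_mem1 n v h).1)
      (fun v h => (z_mem2 n v h).2) (fun v h => (z_mem1 n v h).2) (fun _ _ => rfl)
  rw [Finset.sum_add_distrib, Finset.sum_add_distrib, h1, h2]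
  ring

theorem z_dil (n : ℕ) (g : V → ℤ) :
    ∑ u ∈ Rp (4 * n), (if In2 u then g u else 0) = ∑ u ∈ Rp n, g ((2 : ℤ) • u) := by
  rw [← Finset.sum_filter]
  symm
  refine Finset.sum_nbij' (fun u => (2 : ℤ) • u) (fun u => (u.1 / 2, u.2.1 / 2, u.2.2 / 2))
    ?_ ?_ ?_ ?_ (fun _ _ => rfl)
  · rintro ⟨a, y, b⟩ h
    rw [mem_Rp] at h
    rw [Finset.mem_filter]
    simp only [Prod.smul_mk, smul_eq_mul, mem_Rp, In2]
    have := h.2
    refine ⟨⟨?_, by omega⟩, by omega⟩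
    push_cast
    rw [← h.1]; ring
  · rintro ⟨a, y, b⟩ h
    rw [Finset.mem_filter] at h
    simp only [mem_Rp, In2] at h
    obtain ⟨⟨h1, h2⟩, h4, h5, h6⟩ := h
    obtain ⟨a, rfl⟩ : ∃ x, a = 2 * x := ⟨a / 2, by omega⟩
    obtain ⟨b, rfl⟩ : ∃ x, b = 2 * x := ⟨b / 2, by omega⟩
    obtain ⟨y, rfl⟩ : ∃ x, y = 2 * x := ⟨y / 2, by omega⟩
    simp only [Int.mul_ediv_cancel_left _ (two_ne_zero), mem_Rp]
    push_cast at h1
    exact ⟨by linarith, by omega⟩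
  · rintro ⟨a, y, b⟩ _
    simp only [Prod.smul_mk, smul_eq_mul, Int.mul_ediv_cancel_left _ (two_ne_zero)]
  · rintro ⟨a, y, b⟩ h
    rw [Finset.mem_filter] at h
    simp only [mem_Rp, In2] at h
    obtain ⟨⟨h1, h2⟩, h4, h5, h6⟩ := h
    simp only [Prod.smul_mk, smul_eq_mul]
    refine Prod.ext ?_ (Prod.ext ?_ ?_) <;> simp only <;> omega

theorem z_rt (n : ℕ) (g : V → ℤ) :
    ∑ v ∈ Rp n, g ((2 : ℤ) • rt v) = ∑ w ∈ Rp (4 * n), (if InW w then g w else 0) := by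
  rw [← Finset.sum_filter]
  refine Finset.sum_nbij' (fun u => (2 : ℤ) • rt u)
    (fun u => (-(u.2.2 / 2), u.2.1 / 2, u.1 / 2)) ?_ ?_ ?_ ?_ (fun _ _ => rfl)
  · rintro ⟨a, y, b⟩ h
    rw [mem_Rp] at h
    rw [Finset.mem_filter]
    simp only [rt, Prod.smul_mk, smul_eq_mul, mem_Rp, InW]
    have := h.2
    refine ⟨⟨?_, by omega⟩, by omega⟩
    push_cast
    rw [← h.1]; ring
  · rintro ⟨a, y, b⟩ h
    rw [Finset.mem_filter] at h
    simp only [mem_Rp, InW] at h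
    obtain ⟨⟨h1, h2⟩, h4, h5, h6⟩ := h
    obtain ⟨a, rfl⟩ : ∃ x, a = 2 * x := ⟨a / 2, by omega⟩
    obtain ⟨b, rfl⟩ : ∃ x, b = 2 * x := ⟨b / 2, by omega⟩
    obtain ⟨y, rfl⟩ : ∃ x, y = 2 * x := ⟨y / 2, by omega⟩
    simp only [Int.mul_ediv_cancel_left _ (two_ne_zero), mem_Rp]
    push_cast at h1
    exact ⟨by linarith, by omega⟩
  · rintro ⟨a, y, b⟩ _
    simp only [rt, Prod.smul_mk, smul_eq_mul, Int.mul_ediv_cancel_left _ (two_ne_zero), neg_neg]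
  · rintro ⟨a, y, b⟩ h
    rw [Finset.mem_filter] at h
    simp only [mem_Rp, InW] at h
    obtain ⟨⟨h1, h2⟩, h4, h5, h6⟩ := h
    simp only [rt, Prod.smul_mk, smul_eq_mul]
    refine Prod.ext ?_ (Prod.ext ?_ ?_) <;> simp only <;> omega

theorem z_inv1 {G : V → ℤ} (hG : Inv G) (a b k : ℤ) :
    G (a, -(2 * b + k), k) = G (a, b + 2 * k, b) := by
  rw [← hG.rot (a, b + 2 * k, b), ← hG.hom (-2) (a, -(2 * b + k), k) (by decide)]
  congr 1
  simp only [sg, Prod.smul_mk, smul_eq_mul]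
  refine Prod.ext ?_ (Prod.ext ?_ ?_) <;> simp only <;> ring

theorem z_inv2 {G : V → ℤ} (hG : Inv G) (a b k : ℤ) :
    G (a, b - k, -(b + k)) = G (a, b + 2 * k, b) := by
  have h := z_inv1 hG a (-(b + k)) b
  have e1 : -(2 * -(b + k) + b) = b + 2 * k := by ring
  have e2 : -(b + k) + 2 * b = b - k := by ring
  rw [e1, e2] at h
  exact h.symm

theorem z_step {G : V → ℤ} (hG : Inv G) (n : ℕ) :
    THF (T2 G) n = 3 * ∑ v ∈ Rp n, G ((2 : ℤ) • rt v) := by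
  rw [← z_three n (fun v => G ((2 : ℤ) • rt v)), THF]
  refine Finset.sum_congr rfl ?_
  rintro ⟨a, y, b⟩ h
  rw [mem_Rp] at h
  obtain ⟨k, rfl⟩ := exk h.2
  rw [s1_eq, s2_eq, hG.hom 2 _ (by decide), hG.hom 2 _ (by decide), hG.hom 2 _ (by decide),
    ← hG.hom (-2) (rt (a, -(2 * b + k), k)) (by decide),
    ← hG.hom (-2) (rt (a, b - k, -(b + k))) (by decide), T2]
  have e1 : rt (sg (a, b + 2 * k, b)) = (-2 : ℤ) • rt (a, -(2 * b + k), k) := by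
    simp only [rt, sg, Prod.smul_mk, smul_eq_mul]
    refine Prod.ext ?_ (Prod.ext ?_ ?_) <;> simp only <;> ring
  have e2 : rt (sg' (a, b + 2 * k, b)) = (-2 : ℤ) • rt (a, b - k, -(b + k)) := by
    simp only [rt, sg', Prod.smul_mk, smul_eq_mul]
    refine Prod.ext ?_ (Prod.ext ?_ ?_) <;> simp only <;> ring
  rw [e1, e2]

theorem z_comm {G : V → ℤ} (hG : Inv G) (n : ℕ) (hn : n % 4 = 0 ∨ n % 4 = 3) :
    THF (T2 G) n = THF G (4 * n) + chi ((n : ℤ) % 8) * THF G n +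
      2 * ∑ u ∈ Rp n, (if In2 u then G u else 0) := by
  rw [z_step hG, z_rt, ← z_three]
  have key : ∀ u ∈ Rp (4 * n), ((if InW u then G u else 0) + (if InW (s1 u) then G (s1 u) else 0) +
      if InW (s2 u) then G (s2 u) else 0) = G u + if In2 u then
        (chi ((n : ℤ) % 8) + if In4 u then 2 else 0) * G u else 0 := by
    rintro ⟨a, y, b⟩ h
    rw [mem_Rp] at h
    obtain ⟨k, rfl⟩ := exk h.2
    have h1 := h.1
    push_cast at h1
    obtain ⟨A, rfl⟩ : ∃ x, a = 2 * x := by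
      rcases Int.even_or_odd' a with ⟨x, hx | hx⟩
      · exact ⟨x, hx⟩
      · exfalso
        subst hx
        have : 4 * (b ^ 2 + b * k + k ^ 2 + 3 * x ^ 2 + 3 * x) + 3 = 4 * (n : ℤ) := by
          rw [← h1]; ring
        omega
    have h2 := cnt A b k n (by linarith) (by omega)
    have h3 := congrArg (fun z : ℤ => z * G (2 * A, b + 2 * k, b)) h2
    rw [s1_eq, s2_eq, z_inv1 hG, z_inv2 hG]
    simp only [add_mul, ite_mul, one_mul, zero_mul] at h3 ⊢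
    exact h3
  rw [Finset.sum_congr rfl key, Finset.sum_add_distrib, z_dil, add_assoc, THF, THF, Finset.mul_sum,
    Finset.mul_sum, ← Finset.sum_add_distrib]
  congr 1
  refine Finset.sum_congr rfl ?_
  rintro ⟨a, y, b⟩ _
  have e : In4 ((2 : ℤ) • (a, y, b)) ↔ In2 (a, y, b) := by
    simp only [In4, In2, Prod.smul_mk, smul_eq_mul]; omega
  rw [hG.hom 2 _ (by decide), add_mul]
  simp only [e]
  split_ifs <;> simp

theorem rowEIZ2 : RowEIZ2 := by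
  intro G N hG hN
  refine ⟨chi ((N : ℤ) % 8), ?_⟩
  rw [z_comm hG N hN]
  congr 1
  split_ifs with h
  · obtain ⟨m, rfl⟩ := h
    rw [z_dil, Nat.mul_div_cancel_left _ (by norm_num), THF]
    congr 1
    exact Finset.sum_congr rfl fun u _ => hG.hom 2 _ (by decide)
  · rw [Finset.sum_eq_zero, mul_zero]
    rintro ⟨a, y, b⟩ hu
    rw [mem_Rp] at hu
    rw [if_neg]
    rintro ⟨h1, h2, h3⟩
    simp only at h1 h2 h3
    obtain ⟨a, rfl⟩ : ∃ x, a = 2 * x := ⟨a / 2, by omega⟩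
    obtain ⟨b, rfl⟩ : ∃ x, b = 2 * x := ⟨b / 2, by omega⟩
    obtain ⟨y, rfl⟩ : ∃ x, y = 2 * x := ⟨y / 2, by omega⟩
    have : 4 * (y ^ 2 + 3 * a ^ 2 + 3 * b ^ 2) = (N : ℤ) := by
      rw [← hu.1]; ring
    omega

end Pool.Agent.MP_5f72fe_nt.H16
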