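import Pool.Agent.MP_5f72fe_nt.H3.SpecC

/-! Basic facts on imaginary quadratic fields. -/

namespace Pool.Agent.MP_5f72fe_nt.H16

open NumberField Pool.Agent.MP_5f72fe_nt.H3 Module Polynomial

theorem nsq {n : ℕ} (h : n % 12 = 7) (r : ℚ) : r ^ 2 ≠ -n := by
  intro e
  have h1 : (0 : ℚ) < n := by exact_mod_cast (by omega : 0 < n)
  nlinarith [sq_nonneg r]

variable {k : Type} [Field k] [NumberField k] {n : ℕ} {s : k} {τ : k ≃ₐ[ℚ] k}

theorem lind (hD : n % 12 = 7) (hs : s ^ 2 = -n) : LinearIndependent ℚ ![(1 : k), s] :=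
  (LinearIndependent.pair_iff' one_ne_zero).2 fun a e => nsq hD a (by
    rw [← e, Rat.smul_one_eq_cast] at hs
    exact_mod_cast hs)

theorem bas (h2 : finrank ℚ k = 2) (hD : n % 12 = 7) (hs : s ^ 2 = -n) :
    ∃ b : Basis (Fin 2) ℚ k, b 0 = 1 ∧ b 1 = s :=
  ⟨basisOfLinearIndependentOfCardEqFinrank (lind hD hs) (by simp [h2]), by simp, by simp⟩

theorem rep (h2 : finrank ℚ k = 2) (hD : n % 12 = 7) (hs : s ^ 2 = -n) (x : k) :
    ∃ a b : ℚ, x = a + b * s := by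
  obtain ⟨b, h0, h1⟩ := bas h2 hD hs
  refine ⟨b.repr x 0, b.repr x 1, ?_⟩
  conv_lhs => rw [← b.sum_repr x, Fin.sum_univ_two, h0, h1, Rat.smul_one_eq_cast, Rat.smul_def]

theorem lift (h2 : finrank ℚ k = 2) (hD : n % 12 = 7) (hs : s ^ 2 = -n) (r : k)
    (hr : r ^ 2 = -n) : ∃ f : k →+* k, f s = r := by
  obtain ⟨b, h0, h1⟩ := bas h2 hD hs
  obtain ⟨f, f0, f1⟩ : ∃ f : k →ₗ[ℚ] k, f 1 = 1 ∧ f s = r :=
    ⟨b.constr ℚ ![1, r], by rw [← h0]; simp, by rw [← h1]; simp⟩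
  have hf : ∀ a c : ℚ, f (a + c * s) = a + c * r := fun a c => by
    rw [← Rat.smul_one_eq_cast, ← Rat.smul_def, map_add, map_smul, map_smul, f0, f1,
      Rat.smul_one_eq_cast, Rat.smul_def]
  refine ⟨RingHom.mk' ⟨⟨f, f0⟩, fun x y => ?_⟩ f.map_add, f1⟩
  obtain ⟨a, c, rfl⟩ := rep h2 hD hs x
  obtain ⟨a', c', rfl⟩ := rep h2 hD hs y
  have e : ((a : k) + c * s) * (a' + c' * s) =
      ((a * a' - c * c' * n : ℚ) : k) + ((a * c' + c * a' : ℚ) : k) * s := by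
    push_cast
    linear_combination (c * c' : k) * hs
  show f _ = f _ * f _
  rw [e, hf, hf, hf]
  push_cast
  linear_combination (-(c * c') : k) * hr

theorem s_ne (q : QN n s τ) : s ≠ 0 := fun h => nsq q.md 0 (by
  have := q.sq
  rw [h] at this
  exact_mod_cast this)

theorem rep' (q : QN n s τ) (x : k) : ∃ a b : ℚ, x = a + b * s ∧ τ x = a - b * s := by
  obtain ⟨a, b, rfl⟩ := rep q.rank q.md q.sq x
  exact ⟨a, b, rfl, by simp [q.conj, sub_eq_add_neg]⟩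

theorem tt (q : QN n s τ) (x : k) : τ (τ x) = x := by
  obtain ⟨a, b, rfl, e⟩ := rep' q x
  rw [e]
  simp [q.conj]

theorem fix (q : QN n s τ) (x : k) (h : τ x = x) : ∃ r : ℚ, x = r := by
  obtain ⟨a, b, e1, e2⟩ := rep' q x
  exact ⟨a, by linear_combination (1 / 2 : k) * (e1 + e2 - h)⟩

theorem aut (q : QN n s τ) (σ : k ≃ₐ[ℚ] k) : σ = 1 ∨ σ = τ := by
  have h : σ s ^ 2 = s ^ 2 := by rw [← map_pow, q.sq, map_neg, map_natCast]
  refine (sq_eq_sq_iff_eq_or_eq_neg.1 h).imp (fun h => ?_) fun h => ?_ <;>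
  · ext x
    obtain ⟨a, b, rfl⟩ := rep q.rank q.md q.sq x
    simp [h, q.conj]

theorem t_ne (q : QN n s τ) : τ ≠ 1 := fun h => s_ne q (by
  have := q.conj
  rw [h, AlgEquiv.one_apply] at this
  linear_combination (1 / 2 : k) * this)

theorem nrm_eq (q : QN n s τ) (x : k) : (Algebra.norm ℚ x : k) = x * τ x := by
  classical
  have hu : (Finset.univ : Finset (k ≃ₐ[ℚ] k)) = {1, τ} := by
    ext σ
    simpa using aut q σ
  have : IsGalois ℚ k := IsGalois.of_card_aut_eq_finrank ℚ k (by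
    rw [q.rank, Nat.card_eq_fintype_card, ← Finset.card_univ, hu,
      Finset.card_pair (t_ne q).symm])
  have h := Algebra.norm_eq_prod_automorphisms ℚ x
  rw [hu, Finset.prod_pair (t_ne q).symm] at h
  exact h

theorem tint {x : k} (h : IsIntegral ℤ x) : IsIntegral ℤ (τ x) :=
  h.map (τ : k →+* k).toIntAlgHom

theorem fixint (q : QN n s τ) (x : k) (hx : IsIntegral ℤ x) (h : τ x = x) :
    ∃ m : ℤ, x = m := by
  obtain ⟨r, rfl⟩ := fix q x h
  obtain ⟨m, rfl⟩ := IsIntegrallyClosed.isIntegral_iff.1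
    ((isIntegral_algebraMap_iff (algebraMap ℚ k).injective).1 hx)
  exact ⟨m, by simp⟩

theorem omega_int (q : QN n s τ) : IsIntegral ℤ ((1 + s) / 2) := by
  obtain ⟨c, hc⟩ : ∃ c : ℤ, (n : ℤ) + 1 = 4 * c := ⟨(n + 1) / 4, by have := q.md; omega⟩
  refine ⟨X ^ 2 - X + C c, by monicity!, ?_⟩
  have hc' : (n : k) + 1 = 4 * c := by exact_mod_cast hc
  simp only [eval₂_add, eval₂_sub, eval₂_X_pow, eval₂_C, eval₂_X]
  simp only [algebraMap_int_eq, eq_intCast]
  linear_combination (1 / 4 : k) * q.sq - (1 / 4 : k) * hc'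

omit [NumberField k] in
theorem toO (x : k) (hx : IsIntegral ℤ x) : ∃ y : 𝓞 k, (y : k) = x := ⟨⟨x, hx⟩, rfl⟩

theorem key (q : QN n s τ) : ∃ (b : Basis (Fin 2) ℤ (𝓞 k)) (e : ℤ), e.natAbs = 1 ∧
    ∀ v : Fin 2 → 𝓞 k, (v 0 : k) * τ (v 1) - τ (v 0) * v 1 = (b.det v * e : ℤ) * s := by
  let b : Basis (Fin 2) ℤ (𝓞 k) :=
    Module.finBasisOfFinrankEq ℤ _ ((RingOfIntegers.rank k).trans q.rank)
  have hx : ∀ x : 𝓞 k, (x : k) = b.repr x 0 * b 0 + b.repr x 1 * b 1 := fun x => by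
    conv_lhs => rw [← b.sum_repr x, Fin.sum_univ_two]
    simp
  obtain ⟨t, ht⟩ : ∃ t, t = (b 0 : k) * τ (b 1) - τ (b 0) * b 1 := ⟨_, rfl⟩
  have h1 : ∀ v : Fin 2 → 𝓞 k, (v 0 : k) * τ (v 1) - τ (v 0) * v 1 = b.det v * t := fun v => by
    rw [b.det_apply, Matrix.det_fin_two, hx (v 0), hx (v 1), ht]
    simp only [Basis.toMatrix_apply, map_add, map_mul, map_intCast]
    push_cast
    ring
  have i0 := RingOfIntegers.isIntegral_coe (b 0)
  have i1 := RingOfIntegers.isIntegral_coe (b 1)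
  obtain ⟨u, hu⟩ := fixint q (b 0 * τ (b 1) + τ (b 0) * b 1)
    ((i0.mul (tint i1)).add ((tint i0).mul i1)) (by simp only [map_add, map_mul, tt q]; ring)
  obtain ⟨v, hv⟩ := fixint q (b 0 * τ (b 0) * (b 1 * τ (b 1)))
    ((i0.mul (tint i0)).mul (i1.mul (tint i1))) (by simp only [map_mul, tt q]; ring)
  obtain ⟨m, hm⟩ : ∃ m : ℤ, s = m * t := by
    obtain ⟨y, hy⟩ := toO _ (omega_int q)
    refine ⟨_, Eq.trans ?_ (h1 ![y, 1])⟩
    simp [hy, q.conj, map_ofNat]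
    ring
  have hD : (n : ℤ) = m * m * (4 * v - u ^ 2) := by
    have : (n : k) = m * m * (4 * v - u ^ 2) := by
      have h := q.sq
      rw [hm, ht] at h
      rw [← hu, ← hv]
      linear_combination h
    exact_mod_cast this
  have hm1 : m.natAbs = 1 :=
    Int.isUnit_iff_natAbs_eq.1 ((Int.squarefree_natCast.2 q.sf) m ⟨_, hD⟩)
  refine ⟨b, m, hm1, fun v => ?_⟩
  have h2 : (m : k) * m = 1 := by
    rcases Int.natAbs_eq_iff.1 hm1 with h | h <;> simp [h]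
  rw [h1, hm]
  push_cast
  linear_combination (-(b.det v : k) * t) * h2

theorem int (q : QN n s τ) (x : k) :
    IsIntegral ℤ x ↔ ∃ a b : ℤ, x = a + b * ((1 + s) / 2) := by
  constructor
  · intro hx
    obtain ⟨b, e, -, h⟩ := key q
    obtain ⟨t, ht⟩ := fixint q (x + τ x) (hx.add (tint hx)) (by rw [map_add, tt q, add_comm])
    obtain ⟨N, hN⟩ := fixint q (x * τ x) (hx.mul (tint hx)) (by rw [map_mul, tt q, mul_comm])
    obtain ⟨m, hm⟩ : ∃ m : ℤ, x - τ x = m * s := by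
      obtain ⟨y, rfl⟩ := toO x hx
      refine ⟨_, Eq.trans ?_ (h ![y, 1])⟩
      simp
    have h4 : t * t + n * (m * m) = 4 * N := by
      have : (t : k) * t + n * (m * m) = 4 * N := by
        rw [← ht, ← hN]
        linear_combination (m : k) ^ 2 * q.sq + (x - τ x + m * s) * hm
      exact_mod_cast this
    obtain ⟨c, hc⟩ : ∃ c : ℤ, t = m + 2 * c := by
      obtain ⟨d, hd⟩ : ∃ d : ℤ, (n : ℤ) = 2 * d + 1 := ⟨n / 2, by have := q.md; omega⟩
      have h5 : Even (t * t - m * m) := ⟨2 * N - (d + 1) * (m * m), by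
        rw [hd] at h4
        linear_combination h4⟩
      have h6 : Even (t - m) := by
        rw [Int.even_sub, Int.even_mul, Int.even_mul, or_self, or_self] at h5
        exact Int.even_sub.2 h5
      obtain ⟨c, hc⟩ := h6
      exact ⟨c, by omega⟩
    refine ⟨c, m, ?_⟩
    rw [hc] at ht
    push_cast at ht
    linear_combination (1 / 2 : k) * (ht + hm)
  · rintro ⟨a, b, rfl⟩
    exact (isIntegral_algebraMap (R := ℤ) (x := a)).add
      ((isIntegral_algebraMap (R := ℤ) (x := b)).mul (omega_int q))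

theorem basis (q : QN n s τ) (I : Ideal (𝓞 k)) (hI : I ≠ ⊥) : ∃ α ∈ I, ∃ β ∈ I,
    (α : k) * τ β - τ α * β = (Ideal.absNorm I : ℕ) * s ∧
      ∀ x ∈ I, ∃ a b : ℤ, x = a * α + b * β := by
  obtain ⟨b, e, he, h⟩ := key q
  obtain ⟨c⟩ : Nonempty (Basis (Fin 2) ℤ I) := ⟨Ideal.selfBasis b I hI⟩
  have h1 := Ideal.natAbs_det_basis_change b I c
  have h2 := h ((↑) ∘ c)
  have h3 : (b.det ((↑) ∘ c) * e).natAbs = Ideal.absNorm I := by
    rw [Int.natAbs_mul, he, mul_one, h1]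
  have hg : ∀ x ∈ I, ∃ a b : ℤ, x = a * (c 0 : 𝓞 k) + b * (c 1 : 𝓞 k) := fun x hx => by
    refine ⟨c.repr ⟨x, hx⟩ 0, c.repr ⟨x, hx⟩ 1, ?_⟩
    have := congrArg (Subtype.val : I → 𝓞 k) (c.sum_repr ⟨x, hx⟩)
    rw [Fin.sum_univ_two] at this
    simpa using this.symm
  rcases Int.natAbs_eq_iff.1 h3 with h4 | h4 <;> rw [h4] at h2
  · exact ⟨c 0, (c 0).2, c 1, (c 1).2, by simpa using h2, hg⟩
  · refine ⟨c 1, (c 1).2, c 0, (c 0).2, ?_, fun x hx => ?_⟩
    · simp only [Function.comp_apply, Int.cast_neg, Int.cast_natCast] at h2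
      linear_combination -h2
    · obtain ⟨a, b, h⟩ := hg x hx
      exact ⟨b, a, h.trans (add_comm _ _)⟩

theorem norm (q : QN n s τ) (x : 𝓞 k) :
    (x : k) * τ x = (Ideal.absNorm (Ideal.span {x}) : ℕ) := by
  rw [Ideal.absNorm_span_singleton]
  have h1 : ((Algebra.norm ℤ x : ℤ) : k) = (x : k) * τ x := by
    rw [← nrm_eq q, ← Algebra.coe_norm_int, Rat.cast_intCast]
  obtain ⟨a, b, e1, e2⟩ := rep' q (x : k)
  have h2 : ((Algebra.norm ℤ x : ℤ) : ℚ) = a ^ 2 + n * b ^ 2 := by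
    have : ((Algebra.norm ℤ x : ℤ) : k) = a ^ 2 + n * b ^ 2 := by
      rw [h1, e2, e1]
      linear_combination (-(b : k) ^ 2) * q.sq
    exact_mod_cast this
  have h3 : 0 ≤ Algebra.norm ℤ x := by
    have : (0 : ℚ) ≤ ((Algebra.norm ℤ x : ℤ) : ℚ) := by rw [h2]; positivity
    exact_mod_cast this
  rw [← h1, ← Int.cast_natCast, Int.natAbs_of_nonneg h3]

theorem unit (q : QN n s τ) (x : 𝓞 k) (hx : IsUnit x) : x = 1 ∨ x = -1 := by
  have h1 := norm q x
  rw [Ideal.span_singleton_eq_top.2 hx, Ideal.absNorm_top] at h1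
  obtain ⟨a, b, e⟩ := (int q (x : k)).1 (RingOfIntegers.isIntegral_coe x)
  have e' : τ x = a + b * ((1 - s) / 2) := by
    rw [e]
    simp [q.conj, map_ofNat, sub_eq_add_neg]
  have h2 : (2 * a + b) ^ 2 + n * b ^ 2 = 4 := by
    have : (2 * a + b : k) ^ 2 + n * b ^ 2 = 4 := by
      rw [e', e] at h1
      push_cast at h1
      linear_combination 4 * h1 + (b : k) ^ 2 * q.sq
    exact_mod_cast this
  have hn : (7 : ℤ) ≤ n := by have := q.md; omega
  have hb : b = 0 := by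
    by_contra hb
    have : 1 ≤ b ^ 2 := by have := sq_pos_of_ne_zero hb; omega
    nlinarith [sq_nonneg (2 * a + b)]
  subst hb
  have ha : a ^ 2 = 1 := by linarith
  rcases sq_eq_one_iff.1 ha with h | h
  · left; apply RingOfIntegers.ext; rw [e, h]; simp
  · right; apply RingOfIntegers.ext; rw [e, h]; simp

theorem model (n : ℕ) (hD : n % 12 = 7) (hf : Squarefree n) :
    ∃ (K : Type) (_ : Field K) (_ : NumberField K) (s : K) (τ : K ≃ₐ[ℚ] K), QN n s τ := by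
  obtain ⟨z, hz⟩ : ∃ z : ℂ, z = Complex.I * ((Real.sqrt n : ℝ) : ℂ) := ⟨_, rfl⟩
  have h : z ^ 2 = -n := by
    rw [hz, mul_pow, ← Complex.ofReal_pow, Real.sq_sqrt (Nat.cast_nonneg n),
      Complex.ofReal_natCast, Complex.I_sq, neg_one_mul]
  have hm : (X ^ 2 - C (-n : ℚ)).Monic := monic_X_pow_sub_C _ two_ne_zero
  have h0 : aeval z (X ^ 2 - C (-n : ℚ)) = 0 := by simp [h]
  have hi : IsIntegral ℚ z := ⟨_, hm, h0⟩
  have e := minpoly.eq_of_irreducible_of_monic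
    (X_pow_sub_C_irreducible_of_prime Nat.prime_two (nsq hD)) h0 hm
  have h2 := IntermediateField.adjoin.finrank hi
  rw [← e, natDegree_X_pow_sub_C] at h2
  have hfd := IntermediateField.adjoin.finiteDimensional hi
  have hN : NumberField (IntermediateField.adjoin ℚ {z}) := ⟨⟩
  have hs : (IntermediateField.AdjoinSimple.gen ℚ z) ^ 2 = -n := Subtype.ext (by simpa using h)
  obtain ⟨f, hf'⟩ := lift h2 hD hs (-_) (by rw [neg_sq, hs])
  exact ⟨IntermediateField.adjoin ℚ {z}, inferInstance, hN, IntermediateField.AdjoinSimple.gen ℚ z,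
    AlgEquiv.ofBijective f.toRatAlgHom (Algebra.IsAlgebraic.algHom_bijective _),
    h2, hD, hf, hs, hf'⟩

theorem ind (q : QN n s τ) (a b : ℚ) (h : a + b * s = 0) : a = 0 ∧ b = 0 := by
  have h1 := congrArg τ h
  rw [map_add, map_mul, map_ratCast, map_ratCast, q.conj, map_zero] at h1
  have h2 : (a : k) = 0 := by linear_combination (1 / 2 : k) * (h + h1)
  have h3 : (b : k) * s = 0 := by linear_combination h - h2
  exact ⟨by exact_mod_cast h2, by exact_mod_cast (mul_eq_zero.1 h3).resolve_right (s_ne q)⟩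

theorem rowQN : RowQN := by
  refine ⟨model, fun _ _ _ _ _ _ q => ⟨rep' q, ind q⟩, fun _ _ _ _ _ _ q => int q, ?_, ?_, ?_⟩
  · intro K _ _ n s τ q
    exact basis q
  · intro K _ _ n s τ q
    exact norm q
  · intro K _ _ n s τ q
    exact unit q

end Pool.Agent.MP_5f72fe_nt.H16
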