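import Pool.Agent.MP_5f72fe_nt.H3.SpecC

/-! Ternary theta series with powers of an isotropic linear form. -/

namespace Pool.Agent.MP_5f72fe_nt.H16

open Complex Pool.Agent.MP_5f72fe_nt.H3
open scoped Real

noncomputable section

/-- the quadratic form -/
def Qf (v : V) : ℤ := v.2.1 ^ 2 + 3 * v.1 ^ 2 + 3 * v.2.2 ^ 2

/-- the linear form -/
def lin (s w₁ w₂ : ℂ) (v : V) : ℂ := s * v.1 + w₁ * v.2.1 + w₂ * v.2.2

/-- the weight -/
def wt (μ : ℕ) (v : V) : ℂ := if v.1 % 2 = μ ∧ v.2.1 % 2 = v.2.2 % 2 then chi3 v.2.1 else 0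

def Th (s w₁ w₂ : ℂ) (μ d : ℕ) (τ : ℂ) : ℂ :=
  ∑' v : V, wt μ v * lin s w₁ w₂ v ^ d * E (Qf v * τ / 12)

def Fu (s w₁ w₂ : ℂ) (μ : ℕ) (τ u : ℂ) : ℂ :=
  ∑' v : V, wt μ v * E (Qf v * τ / 12 + u * lin s w₁ w₂ v)

theorem chi3_cases (y : ℤ) : (y % 3 = 0 ∧ chi3 y = 0) ∨ (y % 3 = 1 ∧ chi3 y = 1) ∨
    (y % 3 = 2 ∧ chi3 y = -1) := by
  unfold chi3 Int.bmod
  simp only [Nat.cast_ofNat]
  split_ifs <;> omega

theorem norm_chi3 (y : ℤ) : ‖(chi3 y : ℂ)‖ ≤ 1 := by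
  rcases chi3_cases y with h | h | h <;> rw [h.2] <;> simp

theorem chi3_per (y : ℤ) : chi3 (y + 3) = chi3 y := by
  rcases chi3_cases y with h | h | h <;> rcases chi3_cases (y + 3) with h' | h' | h' <;> omega

theorem norm_wt (μ : ℕ) (v : V) : ‖wt μ v‖ ≤ 1 := by
  unfold wt
  split_ifs
  · exact norm_chi3 _
  · simp

theorem gauss1 (J : RowJH) (T : RowTH) (N : ℕ) (hN : Odd N) (τ : ℂ) (hτ : 0 < τ.im) (R : ℝ) :
    Summable fun b : ℤ => ‖E (b ^ 2 * τ / (4 * N))‖ * Real.exp (R * |(b : ℝ)|) := by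
  have key : ∀ t : ℝ, Summable fun b : ℤ => ‖E (b ^ 2 * τ / (4 * N))‖ * Real.exp (t * b) := by
    intro t
    have h := (T N (fun _ => 1) hN (fun _ => rfl) τ (-(I * ((t / (2 * π) : ℝ) : ℂ))) hτ 0
      (by norm_num)).1
    refine h.congr fun b => ?_
    rw [one_mul, J.add, norm_mul, J.norm (b * _)]
    congr 2
    have : ((b : ℂ) * -(I * ((t / (2 * π) : ℝ) : ℂ))).im = -(b * (t / (2 * π))) := by
      simp only [mul_im, neg_re, neg_im, mul_re, I_re, I_im, ofReal_re, ofReal_im, intCast_re,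
        intCast_im]
      ring
    rw [this]
    have hp : (π : ℝ) ≠ 0 := Real.pi_ne_zero
    field_simp
  refine Summable.of_nonneg_of_le (fun b => by positivity) (fun b => ?_) ((key R).add (key (-R)))
  rw [← mul_add]
  refine mul_le_mul_of_nonneg_left ?_ (norm_nonneg _)
  have h1 := Real.exp_pos (R * b)
  have h2 := Real.exp_pos (-R * b)
  rcases abs_cases (b : ℝ) with h | h
  · rw [h.1]; linarith
  · rw [h.1, show R * -(b : ℝ) = -R * b by ring]; linarith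

theorem E_Q (J : RowJH) (τ : ℂ) (v : V) : E (Qf v * τ / 12) =
    E (v.1 ^ 2 * τ / (4 * (1 : ℕ))) * (E (v.2.1 ^ 2 * τ / (4 * (3 : ℕ))) *
      E (v.2.2 ^ 2 * τ / (4 * (1 : ℕ)))) := by
  rw [← J.add, ← J.add]
  congr 1
  unfold Qf
  push_cast
  ring

theorem gauss3 (J : RowJH) (T : RowTH) (s w₁ w₂ τ : ℂ) (hτ : 0 < τ.im) (R : ℝ) (hR : 0 ≤ R) :
    Summable fun v : V => ‖E (Qf v * τ / 12)‖ * Real.exp (R * ‖lin s w₁ w₂ v‖) := by
  have h1 := gauss1 J T 1 odd_one τ hτ (R * ‖s‖)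
  have h2 := gauss1 J T 3 (by decide) τ hτ (R * ‖w₁‖)
  have h3 := gauss1 J T 1 odd_one τ hτ (R * ‖w₂‖)
  have h23 := h2.mul_of_nonneg h3 (fun b => by positivity) (fun b => by positivity)
  have h := h1.mul_of_nonneg h23 (fun b => by positivity) (fun b => by positivity)
  refine Summable.of_nonneg_of_le (fun v => by positivity) (fun v => ?_) h
  rw [E_Q J, norm_mul, norm_mul]
  have hl : ‖lin s w₁ w₂ v‖ ≤ ‖s‖ * |(v.1 : ℝ)| + ‖w₁‖ * |(v.2.1 : ℝ)| + ‖w₂‖ * |(v.2.2 : ℝ)| := by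
    unfold lin
    refine (norm_add₃_le).trans (le_of_eq ?_)
    simp only [norm_mul, norm_intCast]
  have he : Real.exp (R * ‖lin s w₁ w₂ v‖) ≤ Real.exp (R * ‖s‖ * |(v.1 : ℝ)|) *
      (Real.exp (R * ‖w₁‖ * |(v.2.1 : ℝ)|) * Real.exp (R * ‖w₂‖ * |(v.2.2 : ℝ)|)) := by
    rw [← Real.exp_add, ← Real.exp_add]
    refine Real.exp_le_exp.2 ?_
    have := mul_le_mul_of_nonneg_left hl hR
    linarith
  refine (mul_le_mul_of_nonneg_left he (by positivity)).trans (le_of_eq ?_)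
  ring

theorem expand (J : RowJH) (T : RowTH) (s w₁ w₂ : ℂ) (μ : ℕ) (τ : ℂ) (hτ : 0 < τ.im) (u : ℂ) :
    HasSum (fun d : ℕ => (2 * π * I * u) ^ d / d.factorial * Th s w₁ w₂ μ d τ)
      (Fu s w₁ w₂ μ τ u) := by
  set f : V × ℕ → ℂ := fun p => wt μ p.1 * E (Qf p.1 * τ / 12) *
    ((2 * π * I * (u * lin s w₁ w₂ p.1)) ^ p.2 / p.2.factorial) with hf
  have hn : ∀ v : V, HasSum (fun d : ℕ => ‖f (v, d)‖) (‖wt μ v * E (Qf v * τ / 12)‖ *
      Real.exp ‖2 * π * I * (u * lin s w₁ w₂ v)‖) := by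
    intro v
    have h := (NormedSpace.expSeries_div_hasSum_exp
      (‖2 * π * I * (u * lin s w₁ w₂ v)‖ : ℝ)).mul_left ‖wt μ v * E (Qf v * τ / 12)‖
    rw [← Real.exp_eq_exp_ℝ] at h
    refine h.congr_fun fun d => ?_
    simp only [hf]
    rw [norm_mul (_ * _), norm_div, norm_pow, Complex.norm_natCast]
  have hs : Summable f := by
    refine Summable.of_norm ((summable_prod_of_nonneg fun p => norm_nonneg _).2
      ⟨fun v => (hn v).summable, ?_⟩)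
    refine Summable.of_nonneg_of_le (fun v => tsum_nonneg fun d => norm_nonneg _) (fun v => ?_)
      (gauss3 J T s w₁ w₂ τ hτ (‖2 * π * I * u‖) (norm_nonneg _))
    rw [(hn v).tsum_eq, ← mul_assoc _ u, norm_mul (_ * u), norm_mul]
    refine mul_le_mul_of_nonneg_right ?_ (Real.exp_pos _).le
    exact mul_le_of_le_one_left (norm_nonneg _) (norm_wt μ v)
  have h1 : HasSum (fun v : V => wt μ v * E (Qf v * τ / 12 + u * lin s w₁ w₂ v)) (∑' p, f p) := by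
    refine hs.hasSum.prod_fiberwise fun v => ?_
    have h := (NormedSpace.expSeries_div_hasSum_exp
      (2 * π * I * (u * lin s w₁ w₂ v) : ℂ)).mul_left (wt μ v * E (Qf v * τ / 12))
    rw [← Complex.exp_eq_exp_ℂ] at h
    rw [J.add, ← mul_assoc]
    exact h
  have h2 : HasSum (fun p : ℕ × V => f p.swap) (∑' p, f p) :=
    (Equiv.prodComm ℕ V).hasSum_iff.2 hs.hasSum
  unfold Fu
  rw [h1.tsum_eq]
  refine h2.prod_fiberwise fun d => ?_
  have h3 : Summable fun v : V => f (v, d) := h2.summable.prod_factor d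
  have h4 : ∀ v : V, f (v, d) = (2 * π * I * u) ^ d / d.factorial *
      (wt μ v * lin s w₁ w₂ v ^ d * E (Qf v * τ / 12)) := by
    intro v
    simp only [hf]
    rw [← mul_assoc _ u, mul_pow]
    ring
  unfold Th
  rw [← tsum_mul_left]
  have h5 := h3.hasSum
  simp only [h4] at h5
  simpa only [Prod.swap_prod_mk, h4] using h5

theorem sum_ite {f : ℤ → ℂ} (p : ℤ → Prop) [DecidablePred p] (h : Summable fun b => ‖f b‖) :
    Summable fun b => ‖if p b then f b else 0‖ := by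
  refine Summable.of_nonneg_of_le (fun b => norm_nonneg _) (fun b => ?_) h
  split_ifs
  · exact le_rfl
  · simp

/-- the character as a complex function -/
def chC : ℤ → ℂ := fun b => (chi3 b : ℂ)

theorem chC_per (b : ℤ) : chC (b + (3 : ℕ)) = chC b := by
  unfold chC
  rw [Nat.cast_ofNat, chi3_per]

theorem prod3 (J : RowJH) (T : RowTH) (s w₁ w₂ : ℂ) (μ : ℕ) (τ : ℂ) (hτ : 0 < τ.im) (u : ℂ) :
    Fu s w₁ w₂ μ τ u = thX 1 (fun _ => 1) μ τ (u * s) *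
      (thX 3 chC 0 τ (u * w₁) * thX 1 (fun _ => 1) 0 τ (u * w₂) +
        thX 3 chC 1 τ (u * w₁) * thX 1 (fun _ => 1) 1 τ (u * w₂)) := by
  have h1 := fun (ν : ℕ) (w : ℂ) => sum_ite (fun b : ℤ => b % 2 = ν)
    (T 1 (fun _ => 1) odd_one (fun _ => rfl) τ w hτ 0 (by norm_num)).1
  have h2 := fun (ν : ℕ) (w : ℂ) => sum_ite (fun b : ℤ => b % 2 = ν)
    (T 3 chC (by decide) chC_per τ w hτ 0 (by norm_num)).1
  have h20 := (h2 0 (u * w₁)).mul_norm (h1 0 (u * w₂))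
  have h21 := (h2 1 (u * w₁)).mul_norm (h1 1 (u * w₂))
  unfold thX
  rw [tsum_mul_tsum_of_summable_norm (h2 0 _) (h1 0 _),
    tsum_mul_tsum_of_summable_norm (h2 1 _) (h1 1 _), ← h20.of_norm.tsum_add h21.of_norm,
    tsum_mul_tsum_of_summable_norm (h1 μ _) (h20.of_norm.add h21.of_norm).norm]
  unfold Fu
  refine tsum_congr fun v => ?_
  have hE : E (Qf v * τ / 12 + u * lin s w₁ w₂ v) =
      E (v.1 ^ 2 * τ / (4 * (1 : ℕ)) + v.1 * (u * s)) *
        (E (v.2.1 ^ 2 * τ / (4 * (3 : ℕ)) + v.2.1 * (u * w₁)) *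
          E (v.2.2 ^ 2 * τ / (4 * (1 : ℕ)) + v.2.2 * (u * w₂))) := by
    rw [← J.add, ← J.add]
    congr 1
    unfold Qf lin
    push_cast
    ring
  rw [hE]
  unfold wt chC
  by_cases ha : v.1 % 2 = μ
  · rcases Int.emod_two_eq_zero_or_one v.2.1 with hy | hy <;>
      rcases Int.emod_two_eq_zero_or_one v.2.2 with hb | hb <;>
      simp only [ha, hy, hb, Nat.cast_zero, Nat.cast_one, if_true, if_false, and_self, zero_ne_one,
        one_ne_zero, and_false, mul_zero, zero_mul, add_zero, zero_add, one_mul] <;> ring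
  · simp only [ha, false_and, if_false, zero_mul]

theorem hat_one (J : RowJH) : hat 1 (fun _ => 1) = fun _ => 1 := by
  funext b
  unfold hat
  have h := J.int 0
  simp only [Int.cast_zero] at h
  simp [h]

theorem hat_three (J : RowJH) : hat 3 chC = fun b => I * chC b := by
  funext b
  have h3 : ((√3 : ℝ) : ℂ) ^ 2 = 3 := by
    rw [← ofReal_pow, Real.sq_sqrt (by norm_num)]; norm_num
  have h30 : ((√3 : ℝ) : ℂ) ≠ 0 := by
    intro h; rw [h] at h3; norm_num at h3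
  have e1 := J.quarter.2.2.2
  have e2 : E (2 / 3) = (-1 - I * (√3 : ℝ)) / 2 := by
    rw [show (2 / 3 : ℂ) = 1 / 3 + 1 / 3 by norm_num, J.add, e1]
    linear_combination (1 / 4 : ℂ) * (√3 : ℝ) ^ 2 * I_sq - (1 / 4 : ℂ) * h3
  have sh : ∀ (x y : ℂ) (n : ℤ), x = y + n → E x = E y := by
    intro x y n h
    rw [h, J.add, J.int, mul_one]
  have c0 : chC ((0 : ℕ) : ℤ) = 0 := by unfold chC; rw [show chi3 ((0 : ℕ) : ℤ) = 0 by decide]; simp
  have c1 : chC ((1 : ℕ) : ℤ) = 1 := by unfold chC; rw [show chi3 ((1 : ℕ) : ℤ) = 1 by decide]; simp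
  have c2 : chC ((2 : ℕ) : ℤ) = -1 := by
    unfold chC; rw [show chi3 ((2 : ℕ) : ℤ) = -1 by decide]; simp
  unfold hat
  rw [Finset.sum_range_succ, Finset.sum_range_succ, Finset.sum_range_one, c0, c1, c2,
    div_eq_iff (by exact_mod_cast h30)]
  obtain ⟨q, hq⟩ : ∃ q : ℤ, b = 3 * q + b % 3 := ⟨b / 3, by omega⟩
  unfold chC
  rcases chi3_cases b with h | h | h
  · rw [h.1] at hq
    rw [h.2, zero_mul, sh _ 0 (-2 * q) ?_, sh (-_ / _) 0 (-4 * q) ?_]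
    · simp
    · rw [hq]; push_cast; ring
    · rw [hq]; push_cast; ring
  · rw [h.1] at hq
    rw [h.2, zero_mul, sh _ (1 / 3) (-2 * q - 1) ?_, sh (-_ / _) (2 / 3) (-4 * q - 2) ?_, e1, e2]
    · push_cast; ring
    · rw [hq]; push_cast; ring
    · rw [hq]; push_cast; ring
  · rw [h.1] at hq
    rw [h.2, zero_mul, sh _ (2 / 3) (-2 * q - 2) ?_, sh (-_ / _) (1 / 3) (-4 * q - 3) ?_, e1, e2]
    · push_cast; ring
    · rw [hq]; push_cast; ring
    · rw [hq]; push_cast; ring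

theorem thX_mul (N : ℕ) (c : ℂ) (X : ℤ → ℂ) (μ : ℕ) (τ w : ℂ) :
    thX N (fun b => c * X b) μ τ w = c * thX N X μ τ w := by
  unfold thX
  rw [← tsum_mul_left]
  refine tsum_congr fun b => ?_
  split_ifs
  · ring
  · simp

theorem lawF (J : RowJH) (T : RowTH) (s w₁ w₂ : ℂ) (h0 : s ^ 2 + 3 * w₁ ^ 2 + w₂ ^ 2 = 0) (μ : ℕ)
    (hμ : μ < 2) (τ : ℂ) (hτ : 0 < τ.im) (u : ℂ) :
    Fu s w₁ w₂ μ (-1 / τ) (u / τ) = I * Jh τ ^ 3 *
      ((Fu s w₁ w₂ 0 τ u + (-1) ^ μ * Fu s w₁ w₂ 1 τ u) / (√2 : ℝ)) := by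
  have hτ0 : τ ≠ 0 := by rintro rfl; simp at hτ
  have hτ' : 0 < (-1 / τ).im := by
    rw [neg_div, one_div, neg_im, inv_im, neg_div, neg_neg]
    exact div_pos hτ (normSq_pos.2 hτ0)
  have h1 := fun (ν : ℕ) (hν : ν < 2) (w : ℂ) =>
    (T 1 (fun _ => 1) odd_one (fun _ => rfl) τ w hτ ν hν).2
  have h2 := fun (ν : ℕ) (hν : ν < 2) (w : ℂ) => (T 3 chC (by decide) chC_per τ w hτ ν hν).2
  simp only [hat_one J] at h1
  simp only [hat_three J, thX_mul] at h2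
  have hu : ∀ w : ℂ, u / τ * w = u * w / τ := fun w => by ring
  rw [prod3 J T _ _ _ _ _ hτ', prod3 J T _ _ _ _ _ hτ, prod3 J T _ _ _ _ _ hτ, hu, hu, hu,
    h1 μ hμ, h1 0 (by norm_num), h1 1 (by norm_num), h2 0 (by norm_num), h2 1 (by norm_num)]
  have hE : E ((1 : ℕ) * (u * s) ^ 2 / τ) * (E ((3 : ℕ) * (u * w₁) ^ 2 / τ) *
      E ((1 : ℕ) * (u * w₂) ^ 2 / τ)) = 1 := by
    rw [← J.add, ← J.add, ← J.int 0]
    congr 1
    push_cast
    linear_combination (u ^ 2 / τ) * h0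
  have h2' : ((√2 : ℝ) : ℂ) ^ 2 = 2 := by
    rw [← ofReal_pow, Real.sq_sqrt (by norm_num)]; norm_num
  have h20 : ((√2 : ℝ) : ℂ) ≠ 0 := by
    intro h; rw [h] at h2'; norm_num at h2'
  have hi : (((√2 : ℝ) : ℂ))⁻¹ ^ 2 * 2 = 1 := by
    rw [inv_pow, h2']; norm_num
  generalize E ((1 : ℕ) * (u * s) ^ 2 / τ) = e1 at *
  generalize E ((3 : ℕ) * (u * w₁) ^ 2 / τ) = e2 at *
  generalize E ((1 : ℕ) * (u * w₂) ^ 2 / τ) = e3 at *
  generalize thX 1 (fun _ => 1) 0 τ (u * s) = a0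
  generalize thX 1 (fun _ => 1) 1 τ (u * s) = a1
  generalize thX 1 (fun _ => 1) 0 τ (u * w₂) = b0
  generalize thX 1 (fun _ => 1) 1 τ (u * w₂) = b1
  generalize thX 3 chC 0 τ (u * w₁) = c0
  generalize thX 3 chC 1 τ (u * w₁) = c1
  simp only [div_eq_mul_inv]
  generalize (((√2 : ℝ) : ℂ))⁻¹ = r at *
  generalize ((-1 : ℂ)) ^ μ = ε
  linear_combination (I * Jh τ ^ 3 * r * (a0 + ε * a1) * (c0 * b0 + c1 * b1)) * (r ^ 2 * 2) * hE +
    (I * Jh τ ^ 3 * r * (a0 + ε * a1) * (c0 * b0 + c1 * b1)) * hi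

theorem lawTh (S : RowSER) (J : RowJH) (T : RowTH) (s w₁ w₂ : ℂ)
    (h0 : s ^ 2 + 3 * w₁ ^ 2 + w₂ ^ 2 = 0) (μ : ℕ) (hμ : μ < 2) (τ : ℂ) (hτ : 0 < τ.im) (d : ℕ) :
    Th s w₁ w₂ μ d (-1 / τ) = τ ^ d * (I * Jh τ ^ 3 *
      ((Th s w₁ w₂ 0 d τ + (-1) ^ μ * Th s w₁ w₂ 1 d τ) / (√2 : ℝ))) := by
  have hτ0 : τ ≠ 0 := by rintro rfl; simp at hτ
  have hτ' : 0 < (-1 / τ).im := by
    rw [neg_div, one_div, neg_im, inv_im, neg_div, neg_neg]
    exact div_pos hτ (normSq_pos.2 hτ0)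
  have hp : ∀ (σ : ℂ) (n : ℕ), E (n * σ / (1 : ℕ)) = E σ ^ n := by
    intro σ n
    unfold E
    rw [← Complex.exp_nat_mul]
    congr 1
    push_cast
    ring
  have h := S.uniq 1 (fun d : ℕ => (2 * π * I) ^ d / d.factorial *
    (Th s w₁ w₂ μ d (-1 / τ) / τ ^ d - I * Jh τ ^ 3 *
      ((Th s w₁ w₂ 0 d τ + (-1) ^ μ * Th s w₁ w₂ 1 d τ) / (√2 : ℝ)))) 0 one_pos (by
      intro σ _
      have a := expand J T s w₁ w₂ μ _ hτ' (E σ / τ)
      have b := (((expand J T s w₁ w₂ 0 τ hτ (E σ)).add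
        ((expand J T s w₁ w₂ 1 τ hτ (E σ)).mul_left ((-1) ^ μ))).div_const
          ((√2 : ℝ) : ℂ)).mul_left (I * Jh τ ^ 3)
      rw [lawF J T s w₁ w₂ h0 μ hμ τ hτ] at a
      have c := a.sub b
      rw [sub_self] at c
      refine c.congr_fun fun n => ?_
      rw [hp, mul_pow _ (E σ / τ), mul_pow _ (E σ), div_pow]
      ring)
  have h' := congrFun h d
  simp only [Pi.zero_apply] at h'
  have hc : (2 * π * I : ℂ) ^ d / d.factorial ≠ 0 :=
    div_ne_zero (pow_ne_zero _ two_pi_I_ne_zero) (Nat.cast_ne_zero.2 d.factorial_ne_zero)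
  have h'' := sub_eq_zero.1 ((mul_eq_zero.1 h').resolve_left hc)
  rw [← h'']
  field_simp

theorem mem_Rp (n : ℕ) (v : V) : v ∈ Rp n ↔ Qf v = n ∧ v.2.1 % 2 = v.2.2 % 2 := by
  unfold Rp Qf
  simp only [Finset.mem_filter, Finset.mem_product, Finset.mem_Icc]
  refine ⟨fun h => h.2, fun h => ⟨?_, h⟩⟩
  obtain ⟨h, -⟩ := h
  have a1 := sq_nonneg v.1
  have a2 := sq_nonneg v.2.1
  have a3 := sq_nonneg v.2.2
  have b : ∀ x : ℤ, x ≤ x ^ 2 ∧ -x ≤ x ^ 2 := fun x =>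
    ⟨Int.le_self_sq x, by have := Int.le_self_sq (-x); rwa [neg_sq] at this⟩
  have b1 := b v.1
  have b2 := b v.2.1
  have b3 := b v.2.2
  omega

theorem Qf_mod (v : V) (h : v.2.1 % 2 = v.2.2 % 2) :
    Qf v % 4 = 3 * (v.1 % 2) ∧ (v.2.1 % 3 ≠ 0 → Qf v % 3 = 1) := by
  have s4 : ∀ x : ℤ, x ^ 2 % 4 = x % 2 := by
    intro x
    obtain ⟨q, hq | hq⟩ := Int.even_or_odd' x
    · have : x ^ 2 = 4 * q ^ 2 := by rw [hq]; ring
      omega
    · have : x ^ 2 = 4 * (q ^ 2 + q) + 1 := by rw [hq]; ring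
      omega
  have s3 : ∀ x : ℤ, x % 3 ≠ 0 → x ^ 2 % 3 = 1 := by
    intro x hx
    have : x % 3 = 1 ∨ x % 3 = 2 := by omega
    rcases this with h | h <;> simp [pow_two, Int.mul_emod, h]
  have a1 := s4 v.1
  have a2 := s4 v.2.1
  have a3 := s4 v.2.2
  have a4 := s3 v.2.1
  unfold Qf
  omega

theorem hasSum_Th (J : RowJH) (T : RowTH) (s w₁ w₂ : ℂ) (μ d : ℕ) (τ : ℂ) (hτ : 0 < τ.im) :
    HasSum (fun n : ℕ => par μ (fun n => ∑ v ∈ Rp n, (chi3 v.2.1 : ℂ) * lin s w₁ w₂ v ^ d) n *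
      E (n * τ / (12 : ℕ))) (Th s w₁ w₂ μ d τ) := by
  have hs : Summable fun v : V => wt μ v * lin s w₁ w₂ v ^ d * E (Qf v * τ / 12) := by
    refine Summable.of_norm_bounded
      ((gauss3 J T s w₁ w₂ τ hτ 1 zero_le_one).mul_left (d.factorial : ℝ)) fun v => ?_
    rw [norm_mul, norm_mul, norm_pow, one_mul]
    have h1 : ‖lin s w₁ w₂ v‖ ^ d ≤ d.factorial * Real.exp ‖lin s w₁ w₂ v‖ := by
      have := Real.pow_div_factorial_le_exp _ (norm_nonneg (lin s w₁ w₂ v)) d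
      rwa [div_le_iff₀' (by positivity)] at this
    have h2 : ‖wt μ v‖ * ‖lin s w₁ w₂ v‖ ^ d ≤ d.factorial * Real.exp ‖lin s w₁ w₂ v‖ :=
      (mul_le_of_le_one_left (by positivity) (norm_wt μ v)).trans h1
    refine (mul_le_mul_of_nonneg_right h2 (norm_nonneg _)).trans (le_of_eq ?_)
    ring
  refine (hs.hasSum.tsum_fiberwise fun v : V => (Qf v).toNat).congr_fun fun n => ?_
  rw [tsum_subtype ((fun v : V => (Qf v).toNat) ⁻¹' {n})
    fun v : V => wt μ v * lin s w₁ w₂ v ^ d * E (Qf v * τ / 12), tsum_eq_sum (s := Rp n)]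
  · unfold par
    split_ifs with hn
    · rw [Finset.sum_mul]
      refine Finset.sum_congr rfl fun v hv => ?_
      obtain ⟨h1, h2⟩ := (mem_Rp n v).1 hv
      have h3 := (Qf_mod v h2).1
      rw [Set.indicator_of_mem (by simp [h1]), h1]
      unfold wt
      rw [if_pos ⟨by omega, h2⟩]
      push_cast
      rfl
    · rw [zero_mul]
      refine (Finset.sum_eq_zero fun v hv => ?_).symm
      obtain ⟨h1, h2⟩ := (mem_Rp n v).1 hv
      have h3 := (Qf_mod v h2).1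
      rw [Set.indicator_of_mem (by simp [h1])]
      unfold wt
      rw [if_neg (by omega), zero_mul, zero_mul]
  · intro v hv
    rw [mem_Rp] at hv
    by_cases h : v ∈ (fun v : V => (Qf v).toNat) ⁻¹' {n}
    · rw [Set.indicator_of_mem h]
      have h1 : (Qf v).toNat = n := h
      have h2 : 0 ≤ Qf v := by unfold Qf; positivity
      unfold wt
      rw [if_neg (by omega), zero_mul, zero_mul]
    · exact Set.indicator_of_notMem h _

theorem rowTER1 : OfTER1 := by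
  intro S J T j s w₁ w₂ _ h0
  change WL j fun n => ∑ v ∈ Rp n, (chi3 v.2.1 : ℂ) * lin s w₁ w₂ v ^ (j + 3)
  set c : ℕ → ℂ := fun n => ∑ v ∈ Rp n, (chi3 v.2.1 : ℂ) * lin s w₁ w₂ v ^ (j + 3) with hc
  refine ⟨fun r hr0 hr1 => ?_, fun n hn => ?_, fun τ hτ μ hμ => ?_⟩
  · obtain ⟨t, ht0, ht1, hrt⟩ : ∃ t : ℝ, 0 < t ∧ t < 1 ∧ r ≤ t :=
      ⟨max r (1 / 2), by positivity, max_lt hr1 (by norm_num), le_max_left _ _⟩
    have hl : Real.log t < 0 := Real.log_neg ht0 ht1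
    have hπ := Real.pi_pos
    set τ : ℂ := I * ((-(12 * Real.log t) / (2 * π) : ℝ) : ℂ) with hτd
    have hτ : 0 < τ.im := by
      rw [hτd, I_mul_im, ofReal_re]
      exact div_pos (by linarith) (by positivity)
    have h := ((hasSum_Th J T s w₁ w₂ 0 (j + 3) τ hτ).add
      (hasSum_Th J T s w₁ w₂ 1 (j + 3) τ hτ)).summable.norm
    refine Summable.of_nonneg_of_le (fun n => by positivity) (fun n => ?_) h
    have e : par 0 c n + par 1 c n = c n := by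
      unfold par
      rcases Nat.mod_two_eq_zero_or_one n with h | h <;> simp [h]
    rw [← add_mul, e, norm_mul, J.norm]
    refine mul_le_mul_of_nonneg_left ?_ (norm_nonneg _)
    have e2 : ((n : ℂ) * τ / (12 : ℕ)).im = n * (-(Real.log t) / (2 * π)) := by
      have : (n : ℂ) * τ / (12 : ℕ) = I * ((n * (-(Real.log t) / (2 * π)) : ℝ) : ℂ) := by
        rw [hτd]
        generalize Real.log t = L
        push_cast
        ring
      rw [this, I_mul_im, ofReal_re]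
    rw [e2, show -(2 * π * (n * (-(Real.log t) / (2 * π)))) = n * Real.log t by field_simp,
      Real.exp_nat_mul, Real.exp_log ht0]
    exact pow_le_pow_left₀ hr0 hrt n
  · obtain ⟨v, hv, hv0⟩ := Finset.exists_ne_zero_of_sum_ne_zero hn
    obtain ⟨h1, h2⟩ := (mem_Rp n v).1 hv
    obtain ⟨h3, h4⟩ := Qf_mod v h2
    have h5 : v.2.1 % 3 ≠ 0 := by
      intro h
      rcases chi3_cases v.2.1 with h' | h' | h'
      · rw [h'.2] at hv0; simp at hv0
      · omega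
      · omega
    have h6 := h4 h5
    omega
  · have hτ0 : τ ≠ 0 := by rintro rfl; simp at hτ
    have hτ' : 0 < (-1 / τ).im := by
      rw [neg_div, one_div, neg_im, inv_im, neg_div, neg_neg]
      exact div_pos hτ (normSq_pos.2 hτ0)
    unfold ser
    rw [Nat.cast_one, one_mul, (hasSum_Th J T s w₁ w₂ μ (j + 3) _ hτ').tsum_eq,
      (hasSum_Th J T s w₁ w₂ 0 (j + 3) τ hτ).tsum_eq,
      (hasSum_Th J T s w₁ w₂ 1 (j + 3) τ hτ).tsum_eq, lawTh S J T s w₁ w₂ h0 μ hμ τ hτ]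
    have ht : τ = I * Jh τ ^ 2 := by
      rw [J.sq]
      linear_combination τ * I_sq
    have ht2 : τ ^ (j + 3) = I ^ (j + 3) * Jh τ ^ (2 * (j + 3)) := by
      rw [pow_mul, ← mul_pow, ← ht]
    rw [ht2]
    generalize (Th s w₁ w₂ 0 (j + 3) τ + (-1) ^ μ * Th s w₁ w₂ 1 (j + 3) τ) / ((√2 : ℝ) : ℂ) = X
    linear_combination (I ^ j * Jh τ ^ (2 * j + 9) * X) * I_pow_four

end

end Pool.Agent.MP_5f72fe_nt.H16
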